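import Pool.Agent.Helper26.MCE.GoalsB

/-!
# Project MCE (MP_d8224a_co), packet MCE-LDB
-/

set_option autoImplicit false

namespace Pool.Agent.Helper83.MCE

open Finset Pool.Agent.Helper87.MC Pool.Agent.Helper26.MCE

theorem goalLDB (h1 : G_LDS) (h2 : G_TUP) : G_LDB := by
  classical
  intro G _ _ s V _ D K f B ρ ρh t L2 c ty m lam hC hF hρ ht hmt i hi v₀ g
  set P : Finset (Fin m → G) := Fintype.piFinset fun _ : Fin m ↦ B i with hP
  let E : (Fin s × V → G) → (Fin m → G) → (Fin m → V) → Prop := fun ω b v ↦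
    pos c ω v₀ - g ∈ K i ∧ ∀ a, ¬ Own c f (fun i ↦ Nat.card (K i)) ρ i v₀ (v a) ∧
      Cov D c ω (v a) (g + b a) ∧ ∀ a' < a, ¬ Cov D c ω (v a') (g + b a)
  have hB : (0 : ℝ) < (B i).card := by exact_mod_cast card_pos.2 (hC.Bne i hi)
  have hPc : (P.card : ℝ) = ((B i).card : ℝ) ^ m := by
    rw [hP, Fintype.card_piFinset]
    simp
  -- many tuples for one point
  have step1 : ∀ ω ∈ (Om s V K).filter fun ω ↦
      LD D K B t c f (fun i ↦ Nat.card (K i)) ρ i ω v₀ g,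
      (((B i).card : ℝ) / 4) ^ m ≤ ((∑ b ∈ P, (univ.filter fun v ↦ E ω b v).card : ℕ) : ℝ) := by
    intro ω hω
    rw [mem_filter] at hω
    obtain ⟨hω1, hω2, hω3⟩ := hω
    have h := h2 G V (B i) (fun v b ↦ Cov D c ω v (g + b))
      (fun v' ↦ ¬ Own c f (fun i ↦ Nat.card (K i)) ρ i v₀ v' ∧
        t * (hit D (B i) c ω g v' : ℝ) ≤ (B i).card) t m (by linarith) hmt (fun v hv ↦ hv.2) ?_
    · refine h.trans ?_
      refine Nat.cast_le.2 ?_
      rw [card_eq_sum_ones, sum_filter]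
      refine sum_le_sum fun b _ ↦ ?_
      split_ifs with h6
      · obtain ⟨v, hv⟩ := h6
        apply card_pos.2
        exact ⟨v, mem_filter.2 ⟨mem_univ _, hω2, fun a ↦ ⟨(hv a).1.1, (hv a).2⟩⟩⟩
      · exact Nat.zero_le _
    · refine hω3.trans_le ?_
      refine Nat.mul_le_mul_left 2 (card_le_card ?_)
      intro b hb
      simp only [mem_filter] at hb ⊢
      obtain ⟨hb1, v', hv1, hv2, hv3⟩ := hb
      exact ⟨hb1, v', ⟨hv1, hv2⟩, hv3⟩
  -- sum over the points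
  have step2 : (((B i).card : ℝ) / 4) ^ m * (((Om s V K).filter fun ω ↦
      LD D K B t c f (fun i ↦ Nat.card (K i)) ρ i ω v₀ g).card : ℝ) ≤
      ((∑ b ∈ P, ∑ v : Fin m → V, ((Om s V K).filter fun ω ↦ E ω b v).card : ℕ) : ℝ) := by
    have h5 : ∑ ω ∈ (Om s V K).filter fun ω ↦
        LD D K B t c f (fun i ↦ Nat.card (K i)) ρ i ω v₀ g, (((B i).card : ℝ) / 4) ^ m ≤
        ∑ ω ∈ (Om s V K).filter fun ω ↦ LD D K B t c f (fun i ↦ Nat.card (K i)) ρ i ω v₀ g,
          ((∑ b ∈ P, (univ.filter fun v ↦ E ω b v).card : ℕ) : ℝ) := sum_le_sum step1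
    rw [sum_const, nsmul_eq_mul, mul_comm] at h5
    refine h5.trans ?_
    have h6 : ∑ ω ∈ (Om s V K).filter fun ω ↦
        LD D K B t c f (fun i ↦ Nat.card (K i)) ρ i ω v₀ g,
          ∑ b ∈ P, (univ.filter fun v ↦ E ω b v).card ≤
        ∑ b ∈ P, ∑ v : Fin m → V, ((Om s V K).filter fun ω ↦ E ω b v).card := by
      calc _ ≤ ∑ ω ∈ Om s V K, ∑ b ∈ P, (univ.filter fun v ↦ E ω b v).card :=
            sum_le_sum_of_subset (filter_subset _ _)
        _ = ∑ b ∈ P, ∑ ω ∈ Om s V K, (univ.filter fun v ↦ E ω b v).card := sum_comm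
        _ = ∑ b ∈ P, ∑ v : Fin m → V, ((Om s V K).filter fun ω ↦ E ω b v).card := by
            refine sum_congr rfl fun b _ ↦ ?_
            simp only [card_eq_sum_ones, sum_filter]
            exact sum_comm
    exact_mod_cast h6
  have step3 : ((∑ b ∈ P, ∑ v : Fin m → V, ((Om s V K).filter fun ω ↦ E ω b v).card : ℕ) : ℝ) ≤
      ((B i).card : ℝ) ^ m * ((m * ∑ l ∈ range s, ρ l) ^ m * (Om s V K).card) := by
    rw [← hPc, Nat.cast_sum, ← nsmul_eq_mul]
    refine sum_le_card_nsmul _ _ _ fun b hb ↦ ?_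
    exact h1 G s V D K f B ρ ρh t L2 c ty m lam hC hF hρ i hi v₀ g m b
      fun a ↦ Fintype.mem_piFinset.1 hb a
  have hpos : 0 < (((B i).card : ℝ) / 4) ^ m := by positivity
  refine le_of_mul_le_mul_left ((step2.trans step3).trans_eq ?_) hpos
  have e1 : (4 * (m : ℝ) * ∑ l ∈ range s, ρ l) ^ m = 4 ^ m * (m * ∑ l ∈ range s, ρ l) ^ m := by
    rw [← mul_pow]
    ring_nf
  rw [e1, div_pow]
  field_simp

end Pool.Agent.Helper83.MCE
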