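import Pool.Agent.Helper26.MCE.GoalsA

/-!
# Project MCE (MP_d8224a_co), packet MCE-STEP
-/

set_option autoImplicit false

namespace Pool.Agent.Helper83.MCE

open Finset Pool.Agent.Helper87.MC Pool.Agent.Helper26.MCE

variable {G : Type} [AddCommGroup G] [Fintype G]

theorem mem_full {D : Finset G} {K : AddSubgroup G} {x : G} :
    x ∈ full D K ↔ x ∈ D ∧ ∀ h ∈ K, x + h ∈ D := by
  classical
  unfold full
  rw [mem_filter]

omit [Fintype G] in
theorem mem_fib {D : Finset G} {K : AddSubgroup G} {x y : G} :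
    y ∈ fib D K x ↔ y ∈ D ∧ y - x ∈ K := by
  classical
  unfold fib
  rw [mem_filter]

theorem fib_congr (D : Finset G) (K : AddSubgroup G) {x y : G} (h : y - x ∈ K) :
    fib D K y = fib D K x := by
  ext z
  rw [mem_fib, mem_fib]
  refine and_congr_right fun _ ↦ ⟨fun hz ↦ ?_, fun hz ↦ ?_⟩
  · have := K.add_mem hz h
    rwa [sub_add_sub_cancel] at this
  · have := K.sub_mem hz h
    rwa [sub_sub_sub_cancel_right] at this

omit [Fintype G] in
theorem nf_congr (D : Finset G) (K : AddSubgroup G) {x y : G} (h : y - x ∈ K) (hx : NF D K x) :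
    NF D K y := by
  obtain ⟨k, hk, hkD⟩ := hx
  refine ⟨k - (y - x), K.sub_mem hk h, ?_⟩
  have : y + (k - (y - x)) = x + k := by abel
  rwa [this]

theorem goalSTEP (h1 : G_SUC) (h2 : G_CNT) : G_STEP := by
  classical
  intro G _ _ t ρh δ ℓ J D K ht hρ hδ hℓ hcard hJ h96 h4 hNP hD hK
  -- the non-full fibres
  have hex : ∃ x ∈ D, NF D K x := by
    by_contra hcon
    push Not at hcon
    apply hK
    apply hNP K
    intro x hx h hh
    by_contra hxh
    exact hcon x hx ⟨h, hh, hxh⟩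
  obtain ⟨x₀, hx₀, hN₀⟩ := hex
  obtain ⟨x₁, hx₁, hmax⟩ := exists_max_image (D.filter fun x ↦ NF D K x)
    (fun x ↦ (fib D K x).card) ⟨x₀, mem_filter.2 ⟨hx₀, hN₀⟩⟩
  rw [mem_filter] at hx₁
  set F := (fib D K x₁).card with hF
  have hF1 : 1 ≤ F := by
    apply card_pos.2
    exact ⟨x₁, mem_fib.2 ⟨hx₁.1, by rw [sub_self]; exact K.zero_mem⟩⟩
  have hle : ∀ x, NF D K x → (fib D K x).card ≤ F := by
    intro x hx
    rcases (fib D K x).eq_empty_or_nonempty with h | ⟨y, hy⟩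
    · rw [h, card_empty]
      exact Nat.zero_le _
    · rw [mem_fib] at hy
      rw [← fib_congr D K hy.2]
      exact hmax y (mem_filter.2 ⟨hy.1, nf_congr D K hy.2 hx⟩)
  set A : Finset G := D.filter fun x ↦ NF D K x ∧ F < 2 * (fib D K x).card with hA
  have hmA : ∀ x, x ∈ A ↔ x ∈ D ∧ NF D K x ∧ F < 2 * (fib D K x).card := fun x ↦ by
    rw [hA, mem_filter]
  have hAD : A ⊆ D := filter_subset _ _
  have hAne : A.Nonempty := ⟨x₁, (hmA x₁).2 ⟨hx₁.1, hx₁.2, by omega⟩⟩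
  have hsat : ∀ x ∈ A, ∀ y ∈ D, y - x ∈ K → y ∈ A := by
    intro x hx y hy hyx
    obtain ⟨-, h2, h3⟩ := (hmA x).1 hx
    exact (hmA y).2 ⟨hy, nf_congr D K hyx h2, by rwa [fib_congr D K hyx]⟩
  obtain ⟨K', hK', hcl, hAB, hsp⟩ := h1 G (2 * t) ρh δ ℓ J D A K (by linarith) hρ hδ hℓ hcard hJ
    h96 h4 hNP hAD hAne hsat
  have hT : (1 : ℝ) ≤ (2 * (2 * t)) ^ J := one_le_pow₀ (by linarith)
  have hBne : (full A K').Nonempty := by
    rw [nonempty_iff_ne_empty]
    intro he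
    rw [he, card_empty, Nat.cast_zero, mul_zero] at hAB
    have : (0 : ℝ) < A.card := by exact_mod_cast card_pos.2 hAne
    linarith
  have hB1 : ∀ b ∈ full A K', b ∈ full D K' ∧ NF D K b := by
    intro b hb
    rw [mem_full] at hb
    exact ⟨mem_full.2 ⟨hAD hb.1, fun h hh ↦ hAD (hb.2 h hh)⟩, ((hmA b).1 hb.1).2.1⟩
  refine ⟨K', full A K', F, hK', hF1, hle, ⟨x₁, hx₁.2, rfl⟩, hcl, hBne, hB1, ?_, ?_, hsp, ?_⟩
  · intro b hb y hy hyb
    rw [mem_full] at hb hy ⊢
    refine ⟨hsat b hb.1 y hy.1 hyb, fun h hh ↦ hsat b hb.1 _ (hy.2 h hh) ?_⟩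
    have := K.add_mem hyb (hK' hh)
    have e : y + h - b = y - b + h := by abel
    rwa [e]
  · obtain ⟨b, hb⟩ := hBne
    obtain ⟨hb1, hb2⟩ := hB1 b hb
    rw [mem_full] at hb1
    refine le_trans ?_ (hle b hb2)
    rw [Nat.card_eq_fintype_card, ← card_univ]
    refine card_le_card_of_injOn (fun h : K' ↦ b + (h : G)) ?_ ?_
    · intro h _
      rw [mem_coe, mem_fib]
      refine ⟨hb1.2 h h.2, ?_⟩
      rw [add_sub_cancel_left]
      exact hK' h.2
    · intro h _ h' _ hhh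
      exact Subtype.ext (add_left_cancel hhh)
  · intro M FM hKM hFM
    have := h2 G D A (full A K') K M F FM ((2 * (2 * t)) ^ J) t hKM hF1 hT ht hAne hAD hsat
      (fun x hx ↦ ?_) hFM (fun x hx ↦ (mem_full.1 hx).1) hAB
    · have e : ((2 * (2 * t)) ^ J) ^ 2 = (4 * t) ^ (2 * J) := by
        rw [← pow_mul, mul_comm J 2]
        congr 1
        ring
      rwa [e] at this
    · obtain ⟨-, h3, h4⟩ := (hmA x).1 hx
      exact ⟨h3, hle x h3, h4⟩

end Pool.Agent.Helper83.MCE
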